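import Mathlib
import Pool.Agent.Lib_helper12.HK.DefsE

set_option autoImplicit false

namespace HK

open MeasureTheory QG

theorem mem_Bds (n m : ℕ) (a : Ev n → ℝ) (k : ℤ × ℤ) : k ∈ Bds n m a ↔ Bad n m a k := by
  classical
  rw [Bds, Finset.mem_filter]
  exact ⟨fun h => h.2, fun h => ⟨h.1, h⟩⟩

theorem fb_steep (n m : ℕ) (k1 k2 : ℤ × ℤ) : MeasurableSet {a : Ev n → ℝ | Steep n m a k1 k2} := by
  unfold Steep
  have h1 : Measurable fun a : Ev n → ℝ => a (ke n m k1) := measurable_pi_apply _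
  have h2 : Measurable fun a : Ev n → ℝ => a (ke n m k2) := measurable_pi_apply _
  exact measurableSet_lt measurable_const (h1.sub h2).abs

theorem fb_bad (n m : ℕ) (k : ℤ × ℤ) : MeasurableSet {a : Ev n → ℝ | Bad n m a k} := by
  have e : {a : Ev n → ℝ | Bad n m a k} = ⋃ k1 : ℤ × ℤ, ⋃ k2 : ℤ × ℤ,
      {a : Ev n → ℝ | (k ∈ LamI n m R0 ∧ nn k1 k2 ∧ di k k1 ≤ R0 ∧ di k k2 ≤ R0) ∧
        Steep n m a k1 k2} := by
    ext a
    rw [Set.mem_iUnion]
    constructor
    · rintro ⟨h1, k1, k2, h2, h3, h4, h5⟩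
      exact ⟨k1, Set.mem_iUnion.2 ⟨k2, ⟨h1, h2, h3, h4⟩, h5⟩⟩
    · rintro ⟨k1, h⟩
      obtain ⟨k2, ⟨h1, h2, h3, h4⟩, h5⟩ := Set.mem_iUnion.1 h
      exact ⟨h1, k1, k2, h2, h3, h4, h5⟩
  rw [e]
  refine MeasurableSet.iUnion fun k1 => MeasurableSet.iUnion fun k2 => ?_
  exact (MeasurableSet.const _).inter (fb_steep n m k1 k2)

/-- functions of the set of bad vertices are measurable -/
theorem meas_Bds {β : Type} [MeasurableSpace β] (n m : ℕ) (g : Finset (ℤ × ℤ) → β) :
    Measurable fun a : Ev n → ℝ => g (Bds n m a) := by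
  let _ : MeasurableSpace (Finset (ℤ × ℤ)) := ⊤
  have hB : Measurable fun a : Ev n → ℝ => Bds n m a := by
    refine measurable_to_countable' fun S => ?_
    have e : (fun a : Ev n → ℝ => Bds n m a) ⁻¹' {S} =
        ⋂ k : ℤ × ℤ, {a : Ev n → ℝ | Bad n m a k ↔ k ∈ S} := by
      ext a
      rw [Set.mem_iInter]
      constructor
      · intro h k
        have h' : Bds n m a = S := h
        show Bad n m a k ↔ k ∈ S
        rw [← h', mem_Bds]
      · intro h
        show Bds n m a = S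
        ext k
        rw [mem_Bds]
        exact h k
    rw [e]
    refine MeasurableSet.iInter fun k => ?_
    by_cases hk : k ∈ S
    · have e2 : {a : Ev n → ℝ | Bad n m a k ↔ k ∈ S} = {a : Ev n → ℝ | Bad n m a k} := by
        ext a
        exact ⟨fun h => h.2 hk, fun h => ⟨fun _ => hk, fun _ => h⟩⟩
      rw [e2]
      exact fb_bad n m k
    · have e2 : {a : Ev n → ℝ | Bad n m a k ↔ k ∈ S} = {a : Ev n → ℝ | Bad n m a k}ᶜ := by
        ext a
        exact ⟨fun h hb => hk (h.1 hb), fun h => ⟨fun hb => absurd hb h, fun hs => absurd hs hk⟩⟩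
      rw [e2]
      exact (fb_bad n m k).compl
  exact (measurable_from_top (f := g)).comp hB

end HK
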