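import Mathlib
import Pool.Agent.Lib_helper12.HK.DefsE
import Pool.Agent.Lib_helper69.HKF.W.fb

set_option autoImplicit false

namespace HK

open MeasureTheory QG

/-- the steps of a `*`-path -/
noncomputable def fa_D : Finset (ℤ × ℤ) := ((Finset.Icc (-1) 1) ×ˢ (Finset.Icc (-1) 1)).erase (0, 0)

theorem fa_card : fa_D.card = 8 := by decide

/-- the path from `x` with the steps `c` -/
def fa_g {N : ℕ} (x : ℤ × ℤ) (c : Fin N → ℤ × ℤ) (j : ℕ) : ℤ × ℤ :=
  x + ∑ i ∈ Finset.range j, if h : i < N then c ⟨i, h⟩ else 0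

theorem fa_code {N : ℕ} {γ : ℕ → ℤ × ℤ} (h : SPath N γ) :
    ∃ c ∈ Fintype.piFinset (fun _ : Fin N => fa_D), ∀ j ≤ N, fa_g (γ 0) c j = γ j := by
  refine ⟨fun i => γ (i.val + 1) - γ i.val, ?_, ?_⟩
  · rw [Fintype.mem_piFinset]
    intro i
    have h1 := h.st i.val i.isLt
    have h2 : γ (i.val + 1) ≠ γ i.val := by
      intro he
      have := h.inj (show i.val + 1 ∈ Set.Iic N from i.isLt) (show i.val ∈ Set.Iic N from
        le_of_lt i.isLt) he
      omega
    unfold fa_D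
    rw [Finset.mem_erase, Finset.mem_product, Finset.mem_Icc, Finset.mem_Icc]
    unfold di at h1
    rw [max_le_iff] at h1
    refine ⟨fun he => h2 ?_, ⟨?_, ?_⟩, ⟨?_, ?_⟩⟩
    · exact sub_eq_zero.1 he
    all_goals
      simp only [Prod.fst_sub, Prod.snd_sub]
      omega
  · intro j hj
    unfold fa_g
    have : ∑ i ∈ Finset.range j, (if h : i < N then γ ((⟨i, h⟩ : Fin N).val + 1) -
        γ (⟨i, h⟩ : Fin N).val else 0) = ∑ i ∈ Finset.range j, (γ (i + 1) - γ i) := by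
      refine Finset.sum_congr rfl fun i hi => ?_
      have hi' : i < N := lt_of_lt_of_le (Finset.mem_range.1 hi) hj
      rw [dif_pos hi']
    rw [this, Finset.sum_range_sub]
    abel

theorem fa_one (n m : ℕ) [NeZero n] (p0 : ℝ) (H : Hyp n m p0) (N : ℕ) (g : ℕ → ℤ × ℤ) :
    (muh n 0) {a | Set.InjOn g (Set.Iic N) ∧ ∀ j ≤ N, g j ∈ Bds n m a} ≤
      ENNReal.ofReal ((1 / 10 ^ 8) ^ (N + 1)) := by
  by_cases hi : Set.InjOn g (Set.Iic N)
  · obtain ⟨S, hS⟩ : ∃ S, S = (Finset.range (N + 1)).image g := ⟨_, rfl⟩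
    have hc : S.card = N + 1 := by
      rw [hS, Finset.card_image_of_injOn, Finset.card_range]
      intro a ha b hb hab
      refine hi ?_ ?_ hab
      · have := Finset.mem_range.1 (Finset.mem_coe.1 ha)
        exact Nat.lt_succ_iff.1 this
      · have := Finset.mem_range.1 (Finset.mem_coe.1 hb)
        exact Nat.lt_succ_iff.1 this
    by_cases hL : S ⊆ LamI n m R0
    · have h1 := H.bad S hL
      rw [hc] at h1
      refine le_trans (measure_mono ?_) h1
      rintro a ⟨-, ha⟩ k hk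
      rw [hS, Finset.mem_image] at hk
      obtain ⟨j, hj, rfl⟩ := hk
      exact (mem_Bds n m a _).1 (ha j (Nat.lt_succ_iff.1 (Finset.mem_range.1 hj)))
    · have he : {a : Ev n → ℝ | Set.InjOn g (Set.Iic N) ∧ ∀ j ≤ N, g j ∈ Bds n m a} = ∅ := by
        rw [Set.eq_empty_iff_forall_notMem]
        rintro a ⟨-, ha⟩
        refine hL fun k hk => ?_
        rw [hS, Finset.mem_image] at hk
        obtain ⟨j, hj, rfl⟩ := hk
        exact ((mem_Bds n m a _).1 (ha j (Nat.lt_succ_iff.1 (Finset.mem_range.1 hj)))).1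
      rw [he, measure_empty]
      exact bot_le
  · have he : {a : Ev n → ℝ | Set.InjOn g (Set.Iic N) ∧ ∀ j ≤ N, g j ∈ Bds n m a} = ∅ := by
      rw [Set.eq_empty_iff_forall_notMem]
      rintro a ⟨h, -⟩
      exact hi h
    rw [he, measure_empty]
    exact bot_le

/-- bad `*`-paths are unlikely -/
theorem spath_prob (n m : ℕ) [NeZero n] (p0 : ℝ) (H : Hyp n m p0) (x : ℤ × ℤ) (N : ℕ) :
    (muh n 0) {a | ∃ γ : ℕ → ℤ × ℤ, SPath N γ ∧ γ 0 = x ∧ ∀ j ≤ N, γ j ∈ Bds n m a} ≤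
      ENNReal.ofReal (1 / 10 ^ 8 * (8 / 10 ^ 8) ^ N) := by
  have h1 : {a : Ev n → ℝ | ∃ γ : ℕ → ℤ × ℤ, SPath N γ ∧ γ 0 = x ∧ ∀ j ≤ N, γ j ∈ Bds n m a} ⊆
      ⋃ c ∈ Fintype.piFinset (fun _ : Fin N => fa_D),
        {a | Set.InjOn (fa_g x c) (Set.Iic N) ∧ ∀ j ≤ N, fa_g x c j ∈ Bds n m a} := by
    rintro a ⟨γ, hγ, rfl, hb⟩
    obtain ⟨c, hc, hg⟩ := fa_code hγ
    refine Set.mem_iUnion₂.2 ⟨c, hc, ?_, ?_⟩
    · intro i hi j hj hij
      rw [hg i hi, hg j hj] at hij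
      exact hγ.inj hi hj hij
    · intro j hj
      rw [hg j hj]
      exact hb j hj
  refine (measure_mono h1).trans ?_
  refine (measure_biUnion_finset_le _ _).trans ?_
  refine (Finset.sum_le_card_nsmul _ _ _ fun c _ => fa_one n m p0 H N (fa_g x c)).trans ?_
  rw [Fintype.card_piFinset, Finset.prod_const, fa_card, Finset.card_univ, Fintype.card_fin,
    nsmul_eq_mul]
  have h2 : ((8 ^ N : ℕ) : ENNReal) = ENNReal.ofReal (8 ^ N) := by
    rw [ENNReal.ofReal_pow (by norm_num)]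
    push_cast
    norm_num
  rw [h2, ← ENNReal.ofReal_mul (by positivity)]
  refine le_of_eq ?_
  congr 1
  rw [show (8 / 10 ^ 8 : ℝ) = 8 * (1 / 10 ^ 8) by norm_num, mul_pow, pow_succ]
  ring

end HK
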