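import Mathlib
import Pool.Agent.Lib_helper12.HK.DefsE
import Pool.Agent.Lib_helper12.HK.W.ei
import Pool.Agent.Lib_helper69.HKF.W.fa
import Pool.Agent.Lib_helper69.HKF.W.fb

set_option autoImplicit false

namespace HK

open MeasureTheory QG

theorem fc_num (i s N : ℕ) (h : max i s ≤ 2 * (N + 1)) :
    (1 / 10 ^ 8 * (8 / 10 ^ 8) ^ N : ℝ) ≤ (1 / 256) ^ s * (1 / 2) ^ i := by
  have h1 : (1 / 10 ^ 8 * (8 / 10 ^ 8) ^ N : ℝ) ≤ ((1 / 3000) ^ 2) ^ (N + 1) := by
    have h2 : ((8 / 10 ^ 8) : ℝ) ^ N ≤ ((1 / 3000) ^ 2) ^ N :=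
      pow_le_pow_left₀ (by norm_num) (by norm_num) N
    calc (1 / 10 ^ 8 * (8 / 10 ^ 8) ^ N : ℝ) ≤ (1 / 3000) ^ 2 * ((1 / 3000) ^ 2) ^ N :=
          mul_le_mul (by norm_num) h2 (by positivity) (by positivity)
      _ = ((1 / 3000) ^ 2) ^ (N + 1) := by ring
  refine h1.trans ?_
  rw [← pow_mul]
  have h3 : ((1 / 3000) : ℝ) ^ (2 * (N + 1)) ≤ (1 / 3000) ^ (max i s) :=
    pow_le_pow_of_le_one (by norm_num) (by norm_num) h
  have h4 : ((1 / 3000) : ℝ) ^ (max i s) ≤ (1 / 256 * (1 / 2)) ^ (max i s) :=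
    pow_le_pow_left₀ (by norm_num) (by norm_num) _
  refine h3.trans (h4.trans ?_)
  rw [mul_pow]
  exact mul_le_mul (pow_le_pow_of_le_one (by norm_num) (by norm_num) (le_max_right _ _))
    (pow_le_pow_of_le_one (by norm_num) (by norm_num) (le_max_left _ _))
    (by positivity) (by positivity)

/-- the tails of the radii of the detours -/
theorem rad_tail : ∃ C : ℝ, 0 ≤ C ∧ ∀ (n m : ℕ) [NeZero n] (p0 : ℝ), Hyp n m p0 →
    ∀ (k : ℤ × ℤ) (s : ℕ), (muh n 0) {a | s ≤ rad (Bds n m a : Set (ℤ × ℤ)) k} ≤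
      ENNReal.ofReal (C * (1 / 256) ^ s) := by
  refine ⟨512, by norm_num, ?_⟩
  intro n m _ p0 H k s
  have huniv : (muh n 0) Set.univ ≤ 1 := by
    have h1 := H.bad ∅ (Finset.empty_subset _)
    rw [Finset.card_empty, pow_zero, ENNReal.ofReal_one] at h1
    refine le_trans (measure_mono ?_) h1
    intro a _ k hk
    exact absurd hk (Finset.notMem_empty k)
  by_cases hs : s ≤ 1
  · refine (measure_mono (Set.subset_univ _)).trans (huniv.trans ?_)
    rw [ENNReal.one_le_ofReal]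
    have h1 : ((1 / 256) : ℝ) ^ 1 ≤ (1 / 256) ^ s :=
      pow_le_pow_of_le_one (by norm_num) (by norm_num) hs
    norm_num at h1 ⊢
    linarith
  · obtain ⟨t, rfl⟩ : ∃ t, s = t + 1 := ⟨s - 1, by omega⟩
    have ht : 1 ≤ t := by omega
    set A : ℕ → Set (Ev n → ℝ) := fun i => {a | ∃ γ : ℕ → ℤ × ℤ,
      SPath ((max i t + 1) / 2 - 1) γ ∧ γ 0 = k + ((i : ℤ), 0) ∧
        ∀ j ≤ (max i t + 1) / 2 - 1, γ j ∈ Bds n m a} with hA
    have hsub : {a : Ev n → ℝ | t + 1 ≤ rad (Bds n m a : Set (ℤ × ℤ)) k} ⊆ ⋃ i, A i := by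
      intro a ha
      obtain ⟨i, N, γ, h1, h2, h3, h4⟩ := rad_path (Bds n m a) k t ht ha
      rw [Set.mem_iUnion]
      have hN : (max i t + 1) / 2 - 1 ≤ N := by omega
      refine ⟨i, γ, ⟨fun j hj => h2.st j (lt_of_lt_of_le hj hN), ?_⟩, h3,
        fun j hj => h4 j (hj.trans hN)⟩
      exact h2.inj.mono (Set.Iic_subset_Iic.2 hN)
    have hAi : ∀ i, (muh n 0) (A i) ≤ ENNReal.ofReal ((1 / 256) ^ t * (1 / 2) ^ i) := by
      intro i
      refine (spath_prob n m p0 H (k + ((i : ℤ), 0)) _).trans ?_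
      apply ENNReal.ofReal_le_ofReal
      apply fc_num
      omega
    calc (muh n 0) {a | t + 1 ≤ rad (Bds n m a : Set (ℤ × ℤ)) k}
        ≤ (muh n 0) (⋃ i, A i) := measure_mono hsub
      _ ≤ ∑' i, (muh n 0) (A i) := measure_iUnion_le _
      _ ≤ ∑' i : ℕ, ENNReal.ofReal ((1 / 256) ^ t * (1 / 2) ^ i) := ENNReal.tsum_le_tsum hAi
      _ = ENNReal.ofReal (∑' i : ℕ, (1 / 256) ^ t * (1 / 2) ^ i) := by
          rw [ENNReal.ofReal_tsum_of_nonneg]
          · intro i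
            positivity
          · exact (summable_geometric_of_lt_one (by norm_num) (by norm_num)).mul_left _
      _ ≤ ENNReal.ofReal (512 * (1 / 256) ^ (t + 1)) := by
          apply ENNReal.ofReal_le_ofReal
          rw [tsum_mul_left, tsum_geometric_of_lt_one (by norm_num) (by norm_num), pow_succ]
          have : (0 : ℝ) ≤ (1 / 256) ^ t := by positivity
          norm_num
          linarith

end HK
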