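import Mathlib
import Pool.Agent.Lib_helper12.HK.DefsE
import Pool.Agent.Lib_helper12.HK.W.ei
import Pool.Agent.Lib_helper69.HKF.W.fa
import Pool.Agent.Lib_helper69.HKF.W.fb

set_option autoImplicit false

namespace HK

open MeasureTheory QG

/-- a finite set which contains the sphere of radius `ρ` -/
noncomputable def fd_S (z : ℤ × ℤ) (ρ : ℕ) : Finset (ℤ × ℤ) :=
  (({z.1 + ρ, z.1 - ρ} : Finset ℤ) ×ˢ Finset.Icc (z.2 - ρ) (z.2 + ρ)) ∪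
    (Finset.Icc (z.1 - ρ) (z.1 + ρ) ×ˢ ({z.2 + ρ, z.2 - ρ} : Finset ℤ))

theorem fd_mem {z x : ℤ × ℤ} {ρ : ℕ} (h : di z x = ρ) : x ∈ fd_S z ρ := by
  unfold di at h
  unfold fd_S
  simp only [Finset.mem_union, Finset.mem_product, Finset.mem_insert, Finset.mem_singleton,
    Finset.mem_Icc]
  omega

theorem fd_card (z : ℤ × ℤ) {ρ : ℕ} (hρ : 1 ≤ ρ) : (fd_S z ρ).card ≤ 12 * ρ := by
  unfold fd_S
  refine (Finset.card_union_le _ _).trans ?_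
  rw [Finset.card_product, Finset.card_product, Int.card_Icc, Int.card_Icc]
  have h1 : (({z.1 + ρ, z.1 - ρ} : Finset ℤ)).card ≤ 2 := Finset.card_le_two
  have h2 : (({z.2 + ρ, z.2 - ρ} : Finset ℤ)).card ≤ 2 := Finset.card_le_two
  have e1 : (z.2 + ρ + 1 - (z.2 - ρ)).toNat = 2 * ρ + 1 := by omega
  have e2 : (z.1 + ρ + 1 - (z.1 - ρ)).toNat = 2 * ρ + 1 := by omega
  rw [e1, e2]
  nlinarith

/-- the depth of the closures -/
theorem cl_tail (n m : ℕ) [NeZero n] (p0 : ℝ) (H : Hyp n m p0) (z : ℤ × ℤ) (ρ s : ℕ) :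
    (muh n 0) {a | ∃ x, Cl (Bds n m a : Set (ℤ × ℤ)) z ρ x ∧ di z x + (s + 1) ≤ ρ} ≤
      ENNReal.ofReal (ρ * (1 / 256) ^ s) := by
  rcases Nat.eq_zero_or_pos ρ with h0 | hρ
  · subst h0
    have he : {a : Ev n → ℝ | ∃ x, Cl (Bds n m a : Set (ℤ × ℤ)) z 0 x ∧
        di z x + (s + 1) ≤ 0} = ∅ := by
      rw [Set.eq_empty_iff_forall_notMem]
      rintro a ⟨x, _, h⟩
      omega
    rw [he, measure_empty]
    exact zero_le
  · have hsub : {a : Ev n → ℝ | ∃ x, Cl (Bds n m a : Set (ℤ × ℤ)) z ρ x ∧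
        di z x + (s + 1) ≤ ρ} ⊆ ⋃ x ∈ fd_S z ρ,
        {a | ∃ γ : ℕ → ℤ × ℤ, SPath s γ ∧ γ 0 = x ∧ ∀ j ≤ s, γ j ∈ Bds n m a} := by
      rintro a ⟨x, hx, hs⟩
      obtain ⟨γ, h1, h2, h3⟩ := cl_path hx hs
      rw [Set.mem_iUnion₂]
      exact ⟨γ 0, fd_mem h2, γ, h1, rfl, fun j hj => Finset.mem_coe.1 (h3 j hj)⟩
    refine (measure_mono hsub).trans ((measure_biUnion_finset_le _ _).trans ?_)
    have h1 : ∑ x ∈ fd_S z ρ, (muh n 0) {a | ∃ γ : ℕ → ℤ × ℤ, SPath s γ ∧ γ 0 = x ∧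
        ∀ j ≤ s, γ j ∈ Bds n m a} ≤
        ∑ _x ∈ fd_S z ρ, ENNReal.ofReal (1 / 10 ^ 8 * (8 / 10 ^ 8) ^ s) :=
      Finset.sum_le_sum fun x _ => spath_prob n m p0 H x s
    refine h1.trans ?_
    rw [Finset.sum_const, nsmul_eq_mul, ← ENNReal.ofReal_natCast,
      ← ENNReal.ofReal_mul (Nat.cast_nonneg _)]
    apply ENNReal.ofReal_le_ofReal
    have hc : ((fd_S z ρ).card : ℝ) ≤ 12 * ρ := by exact_mod_cast fd_card z hρ
    have hp : ((8 : ℝ) / 10 ^ 8) ^ s ≤ (1 / 256) ^ s :=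
      pow_le_pow_left₀ (by norm_num) (by norm_num) s
    have hp0 : (0 : ℝ) ≤ (8 / 10 ^ 8) ^ s := by positivity
    have hp1 : (0 : ℝ) ≤ (1 / 256) ^ s := by positivity
    have hr : (0 : ℝ) ≤ ρ := Nat.cast_nonneg _
    calc ((fd_S z ρ).card : ℝ) * (1 / 10 ^ 8 * (8 / 10 ^ 8) ^ s)
        ≤ (12 * (ρ : ℝ)) * (1 / 10 ^ 8 * (1 / 256) ^ s) := by
          apply mul_le_mul hc _ (by positivity) (by positivity)
          apply mul_le_mul_of_nonneg_left hp (by norm_num)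
      _ = (12 / 10 ^ 8) * ((ρ : ℝ) * (1 / 256) ^ s) := by ring
      _ ≤ 1 * ((ρ : ℝ) * (1 / 256) ^ s) := by
          apply mul_le_mul_of_nonneg_right (by norm_num) (by positivity)
      _ = (ρ : ℝ) * (1 / 256) ^ s := one_mul _

end HK
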