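import Mathlib
import Pool.Agent.Lib_helper12.HK.DefsE
import Pool.Agent.Lib_helper12.HK.W.ei
import Pool.Agent.Lib_helper69.HKF.W.fa
import Pool.Agent.Lib_helper69.HKF.W.fb

set_option autoImplicit false

namespace HK

open MeasureTheory QG

theorem fe_mem (x x' : ℤ × ℤ) (r : ℕ) : di x x' ≤ r ↔
    x' ∈ (Finset.Icc (x.1 - r) (x.1 + r)) ×ˢ (Finset.Icc (x.2 - r) (x.2 + r)) := by
  rw [Finset.mem_product, Finset.mem_Icc, Finset.mem_Icc]
  unfold di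
  rw [max_le_iff]
  omega

/-- the probability that a vertex inside the ball belongs to the closure -/
theorem cl_prob (n m : ℕ) [NeZero n] (p0 : ℝ) (H : Hyp n m p0) (z x : ℤ × ℤ) (ρ s : ℕ)
    (h : di z x + (s + 1) ≤ ρ) :
    (muh n 0) {a | Cl (Bds n m a : Set (ℤ × ℤ)) z ρ x} ≤
      ENNReal.ofReal (9 / 10 ^ 8 * (8 / 10 ^ 8) ^ s) := by
  set S : Finset (ℤ × ℤ) :=
    (Finset.Icc (x.1 - (1 : ℕ)) (x.1 + (1 : ℕ))) ×ˢ (Finset.Icc (x.2 - (1 : ℕ)) (x.2 + (1 : ℕ)))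
    with hS
  have hcard : S.card = 9 := by
    rw [hS, Finset.card_product, Int.card_Icc, Int.card_Icc]
    have h1 : (x.1 + (1 : ℕ) + 1 - (x.1 - (1 : ℕ))).toNat = 3 := by push_cast; omega
    have h2 : (x.2 + (1 : ℕ) + 1 - (x.2 - (1 : ℕ))).toNat = 3 := by push_cast; omega
    rw [h1, h2]
  have hsub : {a | Cl (Bds n m a : Set (ℤ × ℤ)) z ρ x} ⊆
      ⋃ x' ∈ S, {a | ∃ γ : ℕ → ℤ × ℤ, SPath s γ ∧ γ 0 = x' ∧ ∀ j ≤ s, γ j ∈ Bds n m a} := by
    intro a ha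
    obtain ⟨γ, h1, h2, h3⟩ := cl_path' (ha) h
    rw [Set.mem_iUnion₂]
    exact ⟨γ 0, (fe_mem x (γ 0) 1).mp h2, γ, h1, rfl, fun j hj => by simpa using h3 j hj⟩
  calc (muh n 0) {a | Cl (Bds n m a : Set (ℤ × ℤ)) z ρ x}
      ≤ (muh n 0) (⋃ x' ∈ S, {a | ∃ γ : ℕ → ℤ × ℤ, SPath s γ ∧ γ 0 = x' ∧
        ∀ j ≤ s, γ j ∈ Bds n m a}) := measure_mono hsub
    _ ≤ ∑ x' ∈ S, (muh n 0) {a | ∃ γ : ℕ → ℤ × ℤ, SPath s γ ∧ γ 0 = x' ∧
        ∀ j ≤ s, γ j ∈ Bds n m a} := measure_biUnion_finset_le _ _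
    _ ≤ ∑ x' ∈ S, ENNReal.ofReal (1 / 10 ^ 8 * (8 / 10 ^ 8) ^ s) :=
        Finset.sum_le_sum fun x' _ => spath_prob n m p0 H x' s
    _ = ENNReal.ofReal (9 / 10 ^ 8 * (8 / 10 ^ 8) ^ s) := by
        rw [Finset.sum_const, hcard, nsmul_eq_mul]
        have : ((9 : ℕ) : ENNReal) = ENNReal.ofReal 9 := by
          rw [ENNReal.ofReal_ofNat]
          rfl
        rw [this, ← ENNReal.ofReal_mul (by norm_num)]
        congr 1
        ring

theorem fe_card (z : ℤ × ℤ) (r : ℕ) (S : Finset (ℤ × ℤ)) (hS : ∀ y ∈ S, di z y = r) :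
    (S.card : ℝ) ≤ 8 * r + 4 := by
  have hsub : S ⊆ ((({z.1 - (r : ℤ)} : Finset ℤ) ×ˢ (Finset.Icc (z.2 - r) (z.2 + r))) ∪
      (({z.1 + (r : ℤ)} : Finset ℤ) ×ˢ (Finset.Icc (z.2 - r) (z.2 + r)))) ∪
      (((Finset.Icc (z.1 - r) (z.1 + r)) ×ˢ ({z.2 - (r : ℤ)} : Finset ℤ)) ∪
      ((Finset.Icc (z.1 - r) (z.1 + r)) ×ˢ ({z.2 + (r : ℤ)} : Finset ℤ))) := by
    intro y hy
    have h1 := hS y hy
    have h2 := (fe_mem z y r).mp h1.le
    rw [Finset.mem_product, Finset.mem_Icc, Finset.mem_Icc] at h2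
    simp only [Finset.mem_union, Finset.mem_product, Finset.mem_singleton, Finset.mem_Icc]
    unfold di at h1
    rcases max_choice (z.1 - y.1).natAbs (z.2 - y.2).natAbs with h | h
    · rw [h] at h1
      have : y.1 = z.1 - r ∨ y.1 = z.1 + r := by omega
      tauto
    · rw [h] at h1
      have : y.2 = z.2 - r ∨ y.2 = z.2 + r := by omega
      tauto
  have h1 := Finset.card_le_card hsub
  have h2 : S.card ≤ 4 * (2 * r + 1) := by
    refine h1.trans ?_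
    refine (Finset.card_union_le _ _).trans ?_
    have a := Finset.card_union_le (({z.1 - (r : ℤ)} : Finset ℤ) ×ˢ (Finset.Icc (z.2 - r) (z.2 + r)))
      (({z.1 + (r : ℤ)} : Finset ℤ) ×ˢ (Finset.Icc (z.2 - (r : ℤ)) (z.2 + r)))
    have b := Finset.card_union_le ((Finset.Icc (z.1 - r) (z.1 + r)) ×ˢ ({z.2 - (r : ℤ)} : Finset ℤ))
      ((Finset.Icc (z.1 - (r : ℤ)) (z.1 + r)) ×ˢ ({z.2 + (r : ℤ)} : Finset ℤ))
    simp only [Finset.card_product, Finset.card_singleton, Int.card_Icc] at a b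
    have e1 : (z.2 + (r : ℤ) + 1 - (z.2 - r)).toNat = 2 * r + 1 := by omega
    have e2 : (z.1 + (r : ℤ) + 1 - (z.1 - r)).toNat = 2 * r + 1 := by omega
    rw [e1] at a
    rw [e2] at b
    omega
  have h3 : (S.card : ℝ) ≤ ((4 * (2 * r + 1) : ℕ) : ℝ) := by exact_mod_cast h2
  push_cast at h3
  linarith

/-- the pointwise bound -/
theorem fe_pt (B : Set (ℤ × ℤ)) (z : ℤ × ℤ) (ρ : ℕ) (T : Finset (ℤ × ℤ))
    (hT : ∀ y, y ∈ T ↔ (di z y ≤ ρ ∧ Cl B z ρ y)) : (Gam B z ρ).ncard ≤ 9 + T.card := by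
  by_cases hz : Cl B z ρ z
  · have hOc : Oc B z ρ ⊆ {z} := by
      intro y hy
      have hy' : Relation.ReflTransGen (st {x | ¬ Cl B z ρ x}) z y := hy
      induction hy' with
      | refl => rfl
      | tail h1 h2 ih =>
        have h3 := ih h1
        rw [Set.mem_singleton_iff] at h3
        obtain ⟨-, h4, -⟩ := h2
        rw [h3] at h4
        exact absurd hz h4
    have hsub : Gam B z ρ ⊆ ((Finset.Icc (z.1 - (1 : ℕ)) (z.1 + (1 : ℕ))) ×ˢ
        (Finset.Icc (z.2 - (1 : ℕ)) (z.2 + (1 : ℕ))) : Finset (ℤ × ℤ)) := by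
      intro y hy
      obtain ⟨-, o, ho, hoy⟩ := hy
      have := hOc ho
      rw [Set.mem_singleton_iff] at this
      rw [this] at hoy
      exact (fe_mem z y 1).mp hoy
    have h1 := Set.ncard_le_ncard hsub (Finset.finite_toSet _)
    rw [Set.ncard_coe_finset, Finset.card_product, Int.card_Icc, Int.card_Icc] at h1
    have h3 : (z.1 + (1 : ℕ) + 1 - (z.1 - (1 : ℕ))).toNat = 3 := by push_cast; omega
    have h4 : (z.2 + (1 : ℕ) + 1 - (z.2 - (1 : ℕ))).toNat = 3 := by push_cast; omega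
    rw [h3, h4] at h1
    omega
  · have hsub : Gam B z ρ ⊆ (T : Set (ℤ × ℤ)) := by
      intro y hy
      rw [Finset.mem_coe, hT]
      exact ⟨(gam_good hz hy).2, hy.1⟩
    have h1 := Set.ncard_le_ncard hsub (Finset.finite_toSet _)
    rw [Set.ncard_coe_finset] at h1
    omega

theorem fe_univ (n m : ℕ) [NeZero n] (p0 : ℝ) (H : Hyp n m p0) : (muh n 0) Set.univ ≤ 1 := by
  have h := H.bad ∅ (Finset.empty_subset _)
  simpa using h

theorem fe_meas (n m : ℕ) [NeZero n] (z : ℤ × ℤ) (ρ : ℕ) (y : ℤ × ℤ) :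
    MeasurableSet {a : Ev n → ℝ | Cl (Bds n m a : Set (ℤ × ℤ)) z ρ y} := by
  have h := meas_Bds n m (fun B : Finset (ℤ × ℤ) => Cl (B : Set (ℤ × ℤ)) z ρ y)
  exact measurableSet_setOfPred.mpr h

/-- the geometric sum -/
theorem fe_geom (ρ : ℕ) : ∑ r ∈ Finset.range ρ, (9 / 10 ^ 8 * (8 / 10 ^ 8) ^ (ρ - 1 - r) : ℝ) ≤ 1 := by
  rw [Finset.sum_range_reflect (fun s => (9 / 10 ^ 8 * (8 / 10 ^ 8) ^ s : ℝ)) ρ,
    ← Finset.mul_sum]
  have h1 : ∑ s ∈ Finset.range ρ, ((8 / 10 ^ 8 : ℝ)) ^ s ≤ (1 - 8 / 10 ^ 8)⁻¹ := by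
    refine (Summable.sum_le_tsum _ (fun i _ => by positivity)
      (summable_geometric_of_lt_one (by norm_num) (by norm_num))).trans ?_
    rw [tsum_geometric_of_lt_one (by norm_num) (by norm_num)]
  have h2 : ((1 : ℝ) - 8 / 10 ^ 8)⁻¹ ≤ 2 := by norm_num
  calc (9 / 10 ^ 8 : ℝ) * ∑ s ∈ Finset.range ρ, (8 / 10 ^ 8 : ℝ) ^ s ≤ 9 / 10 ^ 8 * 2 :=
        mul_le_mul_of_nonneg_left (h1.trans h2) (by norm_num)
    _ ≤ 1 := by norm_num

/-- the length of the circuits -/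
theorem gam_exp : ∃ C : ℝ, 0 ≤ C ∧ ∀ (n m : ℕ) [NeZero n] (p0 : ℝ), Hyp n m p0 →
    ∀ (z : ℤ × ℤ) (ρ : ℕ), 1 ≤ ρ →
      ∫ a, ((Gam (Bds n m a : Set (ℤ × ℤ)) z ρ).ncard : ℝ) ∂muh n 0 ≤ C * ρ := by
  classical
  refine ⟨40, by norm_num, ?_⟩
  intro n m _ p0 H z ρ hρ
  have hu := fe_univ n m p0 H
  have hfin : IsFiniteMeasure (muh n 0) := ⟨lt_of_le_of_lt hu ENNReal.one_lt_top⟩
  have hreal : (muh n 0).real Set.univ ≤ 1 := by
    rw [Measure.real]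
    exact ENNReal.toReal_le_of_le_ofReal zero_le_one (by simpa using hu)
  set S : Finset (ℤ × ℤ) :=
    (Finset.Icc (z.1 - ρ) (z.1 + ρ)) ×ˢ (Finset.Icc (z.2 - ρ) (z.2 + ρ)) with hS
  have hSm : ∀ y, y ∈ S ↔ di z y ≤ ρ := fun y => (fe_mem z y ρ).symm
  set A : ℤ × ℤ → Set (Ev n → ℝ) := fun y => {a | Cl (Bds n m a : Set (ℤ × ℤ)) z ρ y} with hA
  have hAm : ∀ y, MeasurableSet (A y) := fun y => fe_meas n m z ρ y
  have hint : ∀ y, Integrable ((A y).indicator (1 : (Ev n → ℝ) → ℝ)) (muh n 0) := fun y =>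
    (integrable_const (1 : ℝ)).indicator (hAm y)
  have hpt : ∀ a, ((Gam (Bds n m a : Set (ℤ × ℤ)) z ρ).ncard : ℝ) ≤
      9 + ∑ y ∈ S, (A y).indicator (1 : (Ev n → ℝ) → ℝ) a := by
    intro a
    have h1 := fe_pt (Bds n m a : Set (ℤ × ℤ)) z ρ
      (S.filter (fun y => Cl (Bds n m a : Set (ℤ × ℤ)) z ρ y)) (fun y => by
        rw [Finset.mem_filter, hSm])
    have h2 : ∑ y ∈ S, (A y).indicator (1 : (Ev n → ℝ) → ℝ) a =
        ((S.filter (fun y => Cl (Bds n m a : Set (ℤ × ℤ)) z ρ y)).card : ℝ) := by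
      rw [Finset.card_filter]
      push_cast
      refine Finset.sum_congr rfl fun y _ => ?_
      rw [Set.indicator_apply]
      rfl
    rw [h2]
    exact_mod_cast h1
  have hg : Integrable (fun a => 9 + ∑ y ∈ S, (A y).indicator (1 : (Ev n → ℝ) → ℝ) a)
      (muh n 0) := (integrable_const (9 : ℝ)).add (integrable_finsetSum _ fun y _ => hint y)
  have h1 : ∫ a, ((Gam (Bds n m a : Set (ℤ × ℤ)) z ρ).ncard : ℝ) ∂muh n 0 ≤
      ∫ a, (9 + ∑ y ∈ S, (A y).indicator (1 : (Ev n → ℝ) → ℝ) a) ∂muh n 0 :=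
    integral_mono_of_nonneg (Filter.Eventually.of_forall fun a => Nat.cast_nonneg _) hg
      (Filter.Eventually.of_forall hpt)
  refine h1.trans ?_
  rw [integral_add (integrable_const (9 : ℝ)) (integrable_finsetSum _ fun y _ => hint y),
    integral_finsetSum _ fun y _ => hint y, integral_const]
  have h2 : ∀ y ∈ S, ∫ a, (A y).indicator (1 : (Ev n → ℝ) → ℝ) a ∂muh n 0 ≤
      (if di z y < ρ then 9 / 10 ^ 8 * (8 / 10 ^ 8) ^ (ρ - 1 - di z y) else 1) := by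
    intro y _
    rw [integral_indicator_one (hAm y)]
    split_ifs with h
    · rw [Measure.real]
      exact ENNReal.toReal_le_of_le_ofReal (by positivity)
        (cl_prob n m p0 H z y ρ (ρ - 1 - di z y) (by omega))
    · exact (measureReal_mono (Set.subset_univ _)).trans hreal
  have h3 : ∑ y ∈ S, (if di z y < ρ then (9 / 10 ^ 8 * (8 / 10 ^ 8) ^ (ρ - 1 - di z y) : ℝ)
      else 1) ≤ (8 * ρ + 4) * 2 := by
    rw [← Finset.sum_fiberwise_of_maps_to (s := S) (t := Finset.range (ρ + 1))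
      (g := fun y => di z y) (fun y hy => by
        rw [Finset.mem_range]
        have := (hSm y).mp hy
        omega)]
    have h4 : ∀ r ∈ Finset.range (ρ + 1), ∑ y ∈ S.filter (fun y => di z y = r),
        (if di z y < ρ then (9 / 10 ^ 8 * (8 / 10 ^ 8) ^ (ρ - 1 - di z y) : ℝ) else 1) ≤
        (8 * ρ + 4) * (if r < ρ then 9 / 10 ^ 8 * (8 / 10 ^ 8) ^ (ρ - 1 - r) else 1) := by
      intro r hr
      rw [Finset.mem_range] at hr
      have h5 : ∑ y ∈ S.filter (fun y => di z y = r),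
          (if di z y < ρ then (9 / 10 ^ 8 * (8 / 10 ^ 8) ^ (ρ - 1 - di z y) : ℝ) else 1) =
          ∑ y ∈ S.filter (fun y => di z y = r),
          (if r < ρ then (9 / 10 ^ 8 * (8 / 10 ^ 8) ^ (ρ - 1 - r) : ℝ) else 1) := by
        refine Finset.sum_congr rfl fun y hy => ?_
        rw [(Finset.mem_filter.mp hy).2]
      rw [h5, Finset.sum_const, nsmul_eq_mul]
      apply mul_le_mul_of_nonneg_right
      · refine (fe_card z r _ fun y hy => (Finset.mem_filter.mp hy).2).trans ?_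
        have : (r : ℝ) ≤ ρ := by exact_mod_cast (by omega : r ≤ ρ)
        linarith
      · split_ifs <;> positivity
    refine (Finset.sum_le_sum h4).trans ?_
    rw [← Finset.mul_sum]
    apply mul_le_mul_of_nonneg_left _ (by positivity)
    rw [Finset.sum_range_succ, if_neg (lt_irrefl _)]
    have h6 : ∑ r ∈ Finset.range ρ, (if r < ρ then (9 / 10 ^ 8 * (8 / 10 ^ 8) ^ (ρ - 1 - r) : ℝ)
        else 1) = ∑ r ∈ Finset.range ρ, (9 / 10 ^ 8 * (8 / 10 ^ 8) ^ (ρ - 1 - r) : ℝ) :=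
      Finset.sum_congr rfl fun r hr => by rw [if_pos (Finset.mem_range.mp hr)]
    rw [h6]
    have := fe_geom ρ
    linarith
  have h7 : (1 : ℝ) ≤ ρ := by exact_mod_cast hρ
  have h8 := Finset.sum_le_sum h2
  have h9 : (muh n 0).real Set.univ • (9 : ℝ) ≤ 9 := by
    rw [smul_eq_mul]
    linarith
  linarith

end HK
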